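import Mathlib

/-!
# The local loop lemma for odd cycles under absorption

Let `R` be a symmetric relation on `A` which contains an odd cycle through `o`, and let `f` be an idempotent operation on
`A` of arity `n` which is compatible with `R` and such that the set `o^+` of the neighbours of `o` absorbs `{o}` with
respect to `f`. Then `R` contains a loop.

Idea. Let `2 m + 1` be the length of the cycle. There are two walks of length `m` from `o` (chains), whose ends are
adjacent. We show by induction on `j ≤ n` that there is an element `x`, the end of a chain, which is adjacent to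
`f (x, …, x, u, …, u)` with `j` entries `x`, where `u` is the end of one of the two chains. For `j = n` this is a loop. In the
induction step we let the entry number `j` walk from `u` to `o` and then along the chain of the element `x` which is going to
be constructed; by absorption, the elements obtained on the way remain ends of chains.
-/

set_option autoImplicit false

namespace Pool.Agent.Results.MP_511665_al.OddCycles

variable {A : Type*} {R : A → A → Prop} {n : ℕ} {f : (Fin n → A) → A} {o : A} {m : ℕ}

/-- a walk of length `m` from `o` -/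
def Chain (R : A → A → Prop) (o : A) (m : ℕ) (e : ℕ → A) : Prop :=
  e 0 = o ∧ ∀ k < m, R (e k) (e (k + 1))

/-- a walk of length `m` from `o`, or `o` followed by a walk of length `m - 1` from `o` -/
def Semi (R : A → A → Prop) (o : A) (m : ℕ) (e : ℕ → A) : Prop :=
  e 0 = o ∧ (∀ k, 1 ≤ k → k < m → R (e k) (e (k + 1))) ∧ (0 < m → R o (e 1) ∨ e 1 = o)

/-- the tuple with entries `x` before the position `j`, `d` at `j` and `u` after `j` -/
def mix (j : Fin n) (x d u : A) : Fin n → A := fun i => if i < j then x else if i = j then d else u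

theorem mix_self (j : Fin n) (x : A) : mix j x x x = fun _ => x := by
  funext i
  simp [mix]

theorem mix_rel {j : Fin n} {x d u x' d' u' : A} (h1 : R x x') (h2 : R d d') (h3 : R u u') (i : Fin n) :
    R (mix j x d u i) (mix j x' d' u' i) := by
  unfold mix
  split_ifs <;> assumption

variable (hs : ∀ x y, R x y → R y x) (hid : ∀ x, f (fun _ => x) = x)
  (hc : ∀ x y : Fin n → A, (∀ i, R (x i) (y i)) → R (f x) (f y))
  (ha : ∀ (j : Fin n) (b : Fin n → A), (∀ i, i ≠ j → R o (b i)) → b j = o → R o (f b))

include hid hc ha in
theorem near {j : Fin n} {x d u : A} (h1 : R o x) (h2 : R o d ∨ d = o) (h3 : R o u) : R o (f (mix j x d u)) := by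
  rcases h2 with h2 | h2
  · have := hc (fun _ => o) (mix j x d u) (fun i => by
      unfold mix
      split_ifs <;> assumption)
    rwa [hid] at this
  · refine ha j _ (fun i hi => ?_) (by simp [mix, h2])
    unfold mix
    rw [if_neg hi]
    split_ifs <;> assumption

include hid hc ha in
theorem step {j : Fin n} {e d u : ℕ → A} (he : Chain R o m e) (hd : Semi R o m d) (hu : Chain R o m u) :
    Chain R o m (fun k => f (mix j (e k) (d k) (u k))) := by
  refine ⟨by simp only [he.1, hd.1, hu.1, mix_self, hid], fun k hk => ?_⟩
  rcases Nat.eq_zero_or_pos k with rfl | hk0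
  · simp only [he.1, hd.1, hu.1, mix_self, hid]
    have h1 := he.2 0 hk
    have h3 := hu.2 0 hk
    rw [he.1] at h1
    rw [hu.1] at h3
    exact near hid hc ha h1 (hd.2.2 hk) h3
  · exact hc _ _ (mix_rel (he.2 k hk) (hd.2.1 k hk0 hk) (hu.2 k hk))

include hs in
/-- a walk of length `s ≤ m` from `o` can be replaced by a walk of length `m` or `m - 1` with the same end -/
theorem pad {c : ℕ → A} (hcc : Chain R o m c) {s : ℕ} (hsm : s ≤ m) : ∃ d, Semi R o m d ∧ d m = c s := by
  refine ⟨fun k => if k = 0 then o else if m - s ≤ k then c (k - (m - s)) else if Even (m - s - k) then o else c 1,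
    ⟨by simp, fun k hk1 hkm => ?_, fun hm => ?_⟩, ?_⟩
  · have hk0 : k ≠ 0 := by omega
    simp only [hk0, if_false, Nat.add_eq_zero_iff, one_ne_zero, and_false]
    have h01 : R o (c 1) := by
      have := hcc.2 0 (by omega)
      rwa [hcc.1] at this
    by_cases h1 : m - s ≤ k
    · rw [if_pos h1, if_pos (by omega), show k + 1 - (m - s) = k - (m - s) + 1 by omega]
      exact hcc.2 _ (by omega)
    · rw [if_neg h1]
      by_cases h2 : m - s ≤ k + 1
      · rw [if_pos h2, if_neg (by
          rw [show m - s - k = 1 by omega]
          decide), show k + 1 - (m - s) = 0 by omega, hcc.1]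
        exact hs _ _ h01
      · rw [if_neg h2]
        have h3 : m - s - k = (m - s - (k + 1)) + 1 := by omega
        by_cases h4 : Even (m - s - (k + 1))
        · rw [if_pos h4, if_neg (by rw [h3, Nat.even_add_one]; exact fun h => h h4)]
          exact hs _ _ h01
        · rw [if_neg h4, if_pos (by rw [h3, Nat.even_add_one]; exact h4)]
          exact h01
  · have h01 : R o (c 1) := by
      have := hcc.2 0 hm
      rwa [hcc.1] at this
    simp only [one_ne_zero, if_false]
    split_ifs with h1 h2
    · rcases Nat.eq_zero_or_pos (m - s) with h | h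
      · rw [h]
        exact Or.inl h01
      · rw [show 1 - (m - s) = 0 by omega, hcc.1]
        exact Or.inr rfl
    · exact Or.inr rfl
    · exact Or.inl h01
  · rcases Nat.eq_zero_or_pos m with h | h
    · subst h
      have : s = 0 := by omega
      subst this
      simp [hcc.1]
    · have hm0 : m ≠ 0 := by omega
      simp only [hm0, if_false]
      rw [if_pos (by omega)]
      congr 1
      omega

section phase
variable (j : Fin n) (e : ℕ → A) (M : ℕ → ℕ → A) (w : A)

/-- the elements of the chains, along the diagonals -/
noncomputable def F (f : (Fin n → A) → A) (o : A) (m : ℕ) (j : Fin n) (e : ℕ → A) (M : ℕ → ℕ → A) (w : A) :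
    ℕ → ℕ → A
  | 0 => e
  | i + 1 => fun k => if k = 0 then o else if k ≤ i then
      f (mix j (F f o m j e M w i k)
        (if i < m then (if Even (m - i) then o else w) else F f o m j e M w i (i - m)) (M (i - k) k)) else e k

/-- the entries at the position `j` -/
noncomputable def Y (f : (Fin n → A) → A) (o : A) (m : ℕ) (j : Fin n) (e : ℕ → A) (M : ℕ → ℕ → A) (w : A)
    (i : ℕ) : A :=
  if i < m then (if Even (m - i) then o else w) else F f o m j e M w i (i - m)

/-- the chains -/
noncomputable def E (f : (Fin n → A) → A) (o : A) (m : ℕ) (j : Fin n) (e : ℕ → A) (M : ℕ → ℕ → A) (w : A)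
    (t k : ℕ) : A := F f o m j e M w (t + k) k

theorem E_zero_left (k : ℕ) : E f o m j e M w 0 k = e k := by
  unfold E
  rw [zero_add]
  cases k with
  | zero => rfl
  | succ k => simp [F]

theorem E_zero_right (he : e 0 = o) (t : ℕ) : E f o m j e M w t 0 = o := by
  unfold E
  rw [add_zero]
  cases t with
  | zero => exact he
  | succ k => simp [F]

theorem E_succ (t k : ℕ) (hk : k ≠ 0) : E f o m j e M w (t + 1) k =
    f (mix j (E f o m j e M w t k) (Y f o m j e M w (t + k)) (M t k)) := by
  unfold E
  rw [show t + 1 + k = (t + k) + 1 by ring]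
  simp only [F, hk, if_false]
  rw [if_pos (by omega), show t + k - k = t by omega]
  rfl

theorem Y_add (t : ℕ) : Y f o m j e M w (m + t) = E f o m j e M w m t := by
  unfold Y E
  rw [if_neg (by omega), show m + t - m = t by omega]

include hid hc ha in
theorem E_one (he : Chain R o m e) (hM : ∀ t, Chain R o m (M t)) (hw : R o w) (hm : 0 < m) (t : ℕ) (ht : t ≤ m) :
    R o (E f o m j e M w t 1) := by
  induction t with
  | zero =>
    rw [E_zero_left j e M w]
    have := he.2 0 hm
    rwa [he.1] at this
  | succ t ih =>
    rw [E_succ j e M w t 1 one_ne_zero]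
    have h3 := (hM t).2 0 hm
    rw [(hM t).1] at h3
    refine near hid hc ha (ih (by omega)) ?_ h3
    rcases Nat.lt_or_ge (t + 1) m with h | h
    · unfold Y
      rw [if_pos h]
      split_ifs
      · exact Or.inr rfl
      · exact Or.inl hw
    · right
      have h4 : t + 1 = m + 0 := by omega
      rw [h4, Y_add, E_zero_right j e M w he.1]

include hs hid hc ha in
theorem E_adj (he : Chain R o m e) (hM : ∀ t, Chain R o m (M t)) (hw : R o w) (N : ℕ) :
    ∀ t k : ℕ, t ≤ m → k < m → t + k ≤ N → R (E f o m j e M w t k) (E f o m j e M w t (k + 1)) := by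
  induction N with
  | zero =>
    intro t k ht hk h
    have h1 : t = 0 := by omega
    have h2 : k = 0 := by omega
    subst h1 h2
    rw [E_zero_left j e M w, E_zero_left j e M w]
    exact he.2 0 hk
  | succ N ih =>
    intro t k ht hk h
    rcases Nat.eq_zero_or_pos k with rfl | hk0
    · rw [E_zero_right j e M w he.1]
      exact E_one hid hc ha j e M w he hM hw (by omega) t ht
    cases t with
    | zero =>
      rw [E_zero_left j e M w, E_zero_left j e M w]
      exact he.2 k hk
    | succ t =>
      rw [E_succ j e M w t k (by omega), E_succ j e M w t (k + 1) (by omega)]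
      refine hc _ _ (mix_rel (ih t k (by omega) hk (by omega)) ?_ ((hM t).2 k hk))
      rcases Nat.lt_or_ge (t + k) m with h1 | h1
      · rcases Nat.lt_or_ge (t + k + 1) m with h2 | h2
        · unfold Y
          rw [if_pos h1, show t + (k + 1) = t + k + 1 by ring, if_pos h2]
          have h3 : m - (t + k) = (m - (t + k + 1)) + 1 := by omega
          by_cases h4 : Even (m - (t + k + 1))
          · rw [if_pos h4, if_neg (by rw [h3, Nat.even_add_one]; exact fun h => h h4)]
            exact hs _ _ hw
          · rw [if_neg h4, if_pos (by rw [h3, Nat.even_add_one]; exact h4)]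
            exact hw
        · have h3 : t + (k + 1) = m + 0 := by omega
          rw [h3, Y_add, E_zero_right j e M w he.1]
          unfold Y
          rw [if_pos h1, if_neg (by
            rw [show m - (t + k) = 1 by omega]
            decide)]
          exact hs _ _ hw
      · obtain ⟨q, hq⟩ := Nat.exists_eq_add_of_le h1
        rw [hq, show t + (k + 1) = m + (q + 1) by omega, Y_add, Y_add]
        exact ih m q le_rfl (by omega) (by omega)

end phase

include hs hid hc ha in
theorem phase_two (j : Fin n) (e : ℕ → A) (M : ℕ → ℕ → A) (w : A) (hm : 0 < m) (he : Chain R o m e)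
    (hM : ∀ t, Chain R o m (M t)) (hMM : ∀ t, R (M t m) (M (t + 1) m)) (hw : R o w)
    (h0 : R (e m) (f (mix j (e m) o (M 0 m)))) :
    ∃ z, Chain R o m z ∧ R (z m) (f (mix j (z m) (z m) (M m m))) := by
  have hA := fun t k ht hk => E_adj hs hid hc ha j e M w he hM hw (t + k) t k ht hk le_rfl
  have hm0 : m ≠ 0 := by omega
  have key : ∀ t, t < m → R (E f o m j e M w t m) (E f o m j e M w (t + 1) m) := by
    intro t
    induction t with
    | zero =>
      intro _
      have hY : Y f o m j e M w (0 + m) = o := by
        rw [show 0 + m = m + 0 by ring, Y_add, E_zero_right j e M w he.1]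
      rw [E_succ j e M w 0 m hm0, E_zero_left j e M w, hY]
      exact h0
    | succ t ih =>
      intro ht
      rw [E_succ j e M w (t + 1) m hm0]
      conv_lhs => rw [E_succ j e M w t m hm0]
      refine hc _ _ (mix_rel (ih (by omega)) ?_ (hMM t))
      rw [show t + m = m + t by ring, show t + 1 + m = m + (t + 1) by ring, Y_add, Y_add]
      exact hA m t le_rfl (by omega)
  refine ⟨E f o m j e M w m, ⟨E_zero_right j e M w he.1 m, fun k hk => hA m k le_rfl hk⟩, ?_⟩
  obtain ⟨p, hp⟩ : ∃ p, m = p + 1 := ⟨m - 1, by omega⟩
  have h1 := key p (by omega)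
  have h2 : E f o m j e M w (p + 1) m = f (mix j (E f o m j e M w p m) (Y f o m j e M w (p + m)) (M p m)) :=
    E_succ j e M w p m hm0
  have h3 : E f o m j e M w m m = E f o m j e M w (p + 1) m := by
    conv_lhs => rw [show E f o m j e M w m m = E f o m j e M w (p + 1) m by rw [← hp]]
  have h4 := hA m p le_rfl (by omega)
  rw [← hp] at h4
  have h5 : Y f o m j e M w (p + m) = E f o m j e M w m p := by
    rw [show p + m = m + p by ring, Y_add]
  conv_lhs => rw [h3, h2]
  refine hc _ _ (mix_rel (by rw [h3]; exact h1) (by rw [h5]; exact h4) ?_)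
  have h6 := hMM p
  rwa [← hp] at h6

include hs hid hc ha in
/-- the entry number `j` walks to `o` -/
theorem phase_one (j : Fin n) (C : Bool → ℕ → A) (hC : ∀ b, Chain R o m (C b)) (hCC : ∀ b, R (C b m) (C (!b) m))
    (b₀ : Bool) (h0 : ∃ e, Chain R o m e ∧ R (e m) (f (mix j (e m) (C b₀ m) (C b₀ m)))) (t : ℕ) (ht : t ≤ m) :
    ∃ b e, Chain R o m e ∧ R (e m) (f (mix j (e m) (C b₀ (m - t)) (C b m))) := by
  induction t with
  | zero =>
    obtain ⟨e, he, h⟩ := h0
    exact ⟨b₀, e, he, h⟩
  | succ t ih =>
    obtain ⟨b, e, he, h⟩ := ih (by omega)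
    obtain ⟨d, hd, hdm⟩ := pad hs (hC b₀) (show m - t ≤ m by omega)
    refine ⟨!b, _, step hid hc ha (j := j) he hd (hC b), ?_⟩
    simp only [hdm]
    refine hc _ _ (mix_rel h ?_ (hCC b))
    have h1 := (hC b₀).2 (m - (t + 1)) (by omega)
    rw [show m - (t + 1) + 1 = m - t by omega] at h1
    exact hs _ _ h1

include hs hid hc ha in
theorem induction_step (hm : 0 < m) (j : Fin n) (C : Bool → ℕ → A) (hC : ∀ b, Chain R o m (C b))
    (hCC : ∀ b, R (C b m) (C (!b) m))
    (h0 : ∃ b e, Chain R o m e ∧ R (e m) (f (mix j (e m) (C b m) (C b m)))) :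
    ∃ b e, Chain R o m e ∧ R (e m) (f (mix j (e m) (e m) (C b m))) := by
  obtain ⟨b₀, e₀, h0⟩ := h0
  obtain ⟨b, e, he, h⟩ := phase_one hs hid hc ha j C hC hCC b₀ ⟨e₀, h0⟩ m le_rfl
  rw [Nat.sub_self, (hC b₀).1] at h
  have hw : R o (C b 1) := by
    have := (hC b).2 0 hm
    rwa [(hC b).1] at this
  have hb : ∀ t : ℕ, (b ^^ (t + 1).bodd) = !(b ^^ t.bodd) := by
    intro t
    rw [Nat.bodd_succ]
    cases b <;> cases t.bodd <;> rfl
  obtain ⟨z, hz, hz'⟩ := phase_two hs hid hc ha j e (fun t => C (b ^^ t.bodd)) (C b 1) hm he (fun t => hC _)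
    (fun t => by rw [hb]; exact hCC _) hw (by simpa using h)
  exact ⟨_, z, hz, hz'⟩

include hs hid hc ha in
theorem main (hm : 0 < m) (C : Bool → ℕ → A) (hC : ∀ b, Chain R o m (C b)) (hCC : ∀ b, R (C b m) (C (!b) m)) :
    ∃ x, R x x := by
  have key : ∀ j : ℕ, j ≤ n → ∃ b e, Chain R o m e ∧
      R (e m) (f (fun i : Fin n => if i.val < j then e m else C b m)) := by
    intro j
    induction j with
    | zero =>
      intro _
      refine ⟨true, C false, hC _, ?_⟩
      simp only [Nat.not_lt_zero, if_false, hid]
      exact hCC false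
    | succ j ih =>
      intro hj
      obtain ⟨b, e, he, h⟩ := ih (by omega)
      have e1 : ∀ x d u : A, mix (⟨j, by omega⟩ : Fin n) x d u =
          fun i : Fin n => if i.val < j then x else if i.val = j then d else u := by
        intro x d u
        funext i
        simp only [mix, Fin.lt_def, Fin.ext_iff]
      obtain ⟨b', e', he', h'⟩ := induction_step hs hid hc ha hm ⟨j, by omega⟩ C hC hCC ⟨b, e, he, by
        rw [e1]
        convert h using 4 with i
        split_ifs <;> rfl⟩
      refine ⟨b', e', he', ?_⟩
      rw [e1] at h'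
      have e2 : (fun i : Fin n => if i.val < j + 1 then e' m else C b' m) =
          fun i : Fin n => if i.val < j then e' m else if i.val = j then e' m else C b' m := by
        funext i
        by_cases h1 : i.val < j
        · rw [if_pos h1, if_pos (by omega)]
        · by_cases h2 : i.val = j
          · rw [if_neg h1, if_pos h2, if_pos (by omega)]
          · rw [if_neg h1, if_neg h2, if_neg (by omega)]
      rwa [e2]
  obtain ⟨b, e, he, h⟩ := key n le_rfl
  refine ⟨e m, ?_⟩
  have h1 : (fun i : Fin n => if i.val < n then e m else C b m) = fun _ => e m := by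
    funext i
    rw [if_pos i.2]
  rwa [h1, hid] at h

/-- **The local loop lemma for odd cycles under absorption.** Let `R` be a symmetric relation on a set `A` which contains an
odd cycle `a_0, …, a_(l-1)` (it may be any closed walk of odd length). Let `f` be an idempotent operation on `A` which is
compatible with `R` and such that the set of the neighbours of `a_0` absorbs `{a_0}` with respect to `f`. Then `R` contains
a loop. -/
theorem result {A : Type*} (R : A → A → Prop) (hR : ∀ x y, R x y → R y x)
    (l : ℕ) (hl : Odd l) (a : ZMod l → A) (hcycle : ∀ i, R (a i) (a (i + 1)))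
    (n : ℕ) (f : (Fin n → A) → A) (hidem : ∀ x, f (fun _ => x) = x)
    (hcomp : ∀ x y : Fin n → A, (∀ i, R (x i) (y i)) → R (f x) (f y))
    (habs : ∀ (j : Fin n) (b : Fin n → A), (∀ i, i ≠ j → R (a 0) (b i)) → b j = a 0 → R (a 0) (f b)) :
    ∃ x, R x x := by
  obtain ⟨m, hm⟩ := hl
  rcases Nat.eq_zero_or_pos m with h0 | h0
  · subst h0
    have h1 : l = 1 := by omega
    subst h1
    have := hcycle 0
    exact ⟨a 0, by rwa [Subsingleton.elim (0 + 1 : ZMod 1) 0] at this⟩
  · refine main (f := f) hR hidem hcomp habs h0
      (fun b k => if b then a (k : ZMod l) else a (-(k : ZMod l))) (fun b => ?_) (fun b => ?_)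
    · cases b
      · refine ⟨by simp, fun k _ => ?_⟩
        simp only [Bool.false_eq_true, if_false]
        have h1 := hcycle (-((k + 1 : ℕ) : ZMod l))
        rw [show (-((k + 1 : ℕ) : ZMod l) + 1) = -(k : ZMod l) by push_cast; ring] at h1
        exact hR _ _ h1
      · refine ⟨by simp, fun k _ => ?_⟩
        simp only [if_true]
        have h1 := hcycle (k : ZMod l)
        rwa [show ((k : ZMod l) + 1) = ((k + 1 : ℕ) : ZMod l) by push_cast; ring] at h1
    · have h2 : (m : ZMod l) + 1 = -(m : ZMod l) := by
        have h3 : ((l : ℕ) : ZMod l) = 0 := ZMod.natCast_self l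
        rw [hm] at h3
        rw [← hm] at h3
        have h4 : ((2 * m + 1 : ℕ) : ZMod l) = 0 := by
          rw [← hm]
          exact ZMod.natCast_self l
        push_cast at h4
        linear_combination h4
      have h5 := hcycle (m : ZMod l)
      rw [h2] at h5
      cases b
      · simp only [Bool.false_eq_true, if_false, Bool.not_false, if_true]
        exact hR _ _ h5
      · simp only [Bool.false_eq_true, if_false, Bool.not_true, if_true]
        exact h5

end Pool.Agent.Results.MP_511665_al.OddCycles
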